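import Mathlib
import Pool.Agent.Helper617.RM.SadsToP
import Pool.Agent.Helper617.RM.PToSads
import Pool.Agent.Helper617.RM.Sanity

/-!
The principle `P` (each infinite weakly stable partial order has an infinite stable suborder)
is equivalent to `SADS` over `RCA₀`: the equivalence holds in every model of `RCA₀`.

Idea for `SADS → P`. Order the elements of a weakly stable partial order by
`x ◁ y` iff, at the least `z` with `[x ≤ z] ≠ [y ≤ z]`, we have `x ≤ z`. This is a linear
extension. With the pigeonhole principle for finitely many classes it is of type `ω + ω*`, and
a monotone sequence for it avoids the large elements or avoids the small ones.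
The pigeonhole principle is itself derived from `SADS` inside an arbitrary model of `RCA₀`.
-/

namespace Pool.Agent.Results.MP_d7d825_lc.StrengthOfP

open Pool.Agent.Helper617.RM

universe u

/-- `RCA₀` proves `P ↔ SADS`: in every model of `RCA₀` (standard or not, with any family of
sets) the principle `P` holds if and only if `SADS` holds. -/
theorem result (N : L2Structure.{u}) (hN : IsModelRCA0 N) :
    PrincipleP N ↔ PrincipleSADS N :=
  ⟨SADS_of_P, P_of_SADS⟩

end Pool.Agent.Results.MP_d7d825_lc.StrengthOfP
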